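import Pool.Agent.H15.FLC.Targets

/-!
MP_c62aed_lc, cutting planes for random CNFs: row PRC. For good `y` every line has a small cover.
Model: `Pool/Agent/H80/FLX/PRX.lean` (helper80).
-/

set_option autoImplicit false

namespace Pool.Agent.H39.FLC

open Finset
open Pool.Agent.H15.FLC

theorem prc_mono {n k m : ℕ} (H : Fin m → Half n k) (r w : ℕ)
    (f : ℕ → (Fin n → Bool) → ℝ) {i j : ℕ} (hij : i ≤ j) : ERC H r w f i ⊆ ERC H r w f j := by
  induction hij with
  | refl => exact Subset.refl _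
  | step _ ih =>
    refine Subset.trans ih ?_
    rw [ERC]
    exact subset_union_left

/-- a cover by at most `r` clauses gives a small cover -/
theorem prc_step {n k m : ℕ} (H : Fin m → Half n k) (r w q : ℕ)
    (f : ℕ → (Fin n → Bool) → ℝ) (R : Set (Fin m)) (i : ℕ) (a : ℝ)
    (hF : ¬ BadC H q (KRC H r w f i) R) (T₀ : Finset (Fin m)) (hT₀ : ∀ c ∈ T₀, c ∈ R)
    (hT₀c : T₀.card ≤ r) (hT₀v : CovC H T₀ (BRC (ERC H r w f i) (f i) a)) :
    ∃ T : Finset (Fin m), (∀ c ∈ T, c ∈ R) ∧ T.card ≤ q ∧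
      CovC H T (BRC (ERC H r w f (i + 1)) (f i) a) := by
  classical
  have hit : ∀ p ∈ KerC H r w (BRC (ERC H r w f i) (f i) a), ∃ c ∈ R, InsC H p c := by
    intro p hp
    obtain ⟨c, hc, hin⟩ := hp.2 T₀ hT₀c hT₀v
    exact ⟨c, hT₀ c hc, hin⟩
  unfold BadC at hF
  push Not at hF
  obtain ⟨T', hT', hT'c, hT'p⟩ := hF _ ⟨a, rfl⟩ hit
  refine ⟨T', hT', hT'c, ?_⟩
  intro x hx
  rw [BRC, mem_filter] at hx
  obtain ⟨_, hx1, hx2⟩ := hx
  rw [ERC, mem_union, not_or] at hx1
  obtain ⟨hx3, hx4⟩ := hx1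
  have hxB : x ∈ BRC (ERC H r w f i) (f i) a := by
    rw [BRC, mem_filter]
    exact ⟨mem_univ _, hx3, hx2⟩
  have hx5 : x ∉ ErrC H r w (BRC (ERC H r w f i) (f i) a) := by
    intro hh
    exact hx4 (mem_filter.2 ⟨mem_univ _, _, hh⟩)
  rw [ErrC, mem_filter, not_and] at hx5
  have hx6 := hx5 hxB
  push Not at hx6
  obtain ⟨A, _, hA⟩ := hx6
  obtain ⟨c, hc, hin⟩ := hT'p _ hA
  exact ⟨c, hc, hin.2⟩

theorem pf_PRC : T_PRC := by
  intro n k m F r w q t s f g hr hR y hF i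
  classical
  induction i using Nat.strong_induction_on with
  | _ i ih =>
    intro hi
    obtain ⟨P, T, hP, hT, hlt, himp⟩ := hR.2.2 i hi
    choose TQ hTQ1 hTQ2 hTQ3 using fun (j : ℕ) (hj : j ∈ P) => ih j (hlt j hj) ((hlt j hj).trans hi)
    let S1 : Finset (Fin m) := P.attach.biUnion fun p => TQ p.1 p.2
    let S2 : Finset (Fin m) := T.filter fun c => c ∈ RY (fun c => (F c).2) y
    have hS : ∀ c ∈ S1 ∪ S2, c ∈ RY (fun c => (F c).2) y := by
      intro c hc
      rcases Finset.mem_union.1 hc with h | h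
      · obtain ⟨p, -, hp⟩ := Finset.mem_biUnion.1 h
        exact hTQ1 p.1 p.2 c hp
      · exact (Finset.mem_filter.1 h).2
    have hc1 : S1.card ≤ t * q := by
      have h1 := Finset.card_biUnion_le_card_mul P.attach (fun p => TQ p.1 p.2) q
        (fun p _ => hTQ2 p.1 p.2)
      rw [Finset.card_attach] at h1
      exact h1.trans (Nat.mul_le_mul_right q hP)
    have hc2 : S2.card ≤ t := (Finset.card_filter_le _ _).trans hT
    have hcard : (S1 ∪ S2).card ≤ r := by
      have h1 := Finset.card_union_le S1 S2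
      omega
    refine prc_step (fun c => (F c).1) r w q f _ i (-(g i y)) (hF i hi) (S1 ∪ S2) hS hcard ?_
    intro x hx
    rw [BRC, mem_filter] at hx
    obtain ⟨_, hx1, hx2⟩ := hx
    have h1 : ¬ ((∀ j ∈ P, 0 ≤ f j x + g j y) ∧ ∀ c ∈ T, ¬ False2 F c x y) := by
      intro h
      have h2 := himp x y h.1 h.2
      linarith
    rw [not_and_or] at h1
    rcases h1 with h1 | h1
    · push Not at h1
      obtain ⟨j, hj, hxj⟩ := h1
      obtain ⟨c, hc, hv⟩ := hTQ3 j hj x (by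
        rw [BRC, mem_filter]
        refine ⟨mem_univ _, ?_, by linarith⟩
        intro hh
        exact hx1 (prc_mono _ r w f (Nat.succ_le_of_lt (hlt j hj)) hh))
      exact ⟨c, Finset.mem_union_left _ (Finset.mem_biUnion.2
        ⟨⟨j, hj⟩, Finset.mem_attach _ _, hc⟩), hv⟩
    · push Not at h1
      obtain ⟨c, hc, hf⟩ := h1
      exact ⟨c, Finset.mem_union_right _ (Finset.mem_filter.2 ⟨hc, hf.2⟩), hf.1⟩

end Pool.Agent.H39.FLC
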